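import Mathlib

set_option autoImplicit false

open Polynomial Finset

namespace Pool.Agent.W345.GK

/-- the operator `U_q`: the coefficient of `T^i` in `UU q f` is the coefficient of
`T^(q i + q - 1)` in `f` (for `q > 0`) -/
noncomputable def UU {L : Type} [Semiring L] (q : ℕ) (f : L[X]) : L[X] :=
  ∑ i ∈ range (f.natDegree + 1), Polynomial.monomial i (f.coeff (q * i + (q - 1)))

/-- the matrix of `g ↦ UU q (g * R)` on the polynomials of degree at most `M` -/
def AA {L : Type} [Semiring L] (q M : ℕ) (R : L[X]) : Matrix (Fin (M + 1)) (Fin (M + 1)) L :=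
  fun i j => if (j : ℕ) ≤ q * i + (q - 1) then R.coeff (q * i + (q - 1) - j) else 0

/-- the companion matrix of the monic polynomial `T^n + sum c_i T^i` -/
def comp {k : Type} [Field k] {n : ℕ} (c : Fin n → k) : Matrix (Fin n) (Fin n) k :=
  fun i j => if (j : ℕ) + 1 = n then - c i else if (i : ℕ) = j + 1 then 1 else 0

/-- the monic polynomial `T^n + sum c_i T^i` -/
noncomputable def mon {k : Type} [Field k] {n : ℕ} (c : Fin n → k) : k[X] :=
  X ^ n + ∑ i : Fin n, C (c i) * X ^ (i : ℕ)

/-- the resultant of `mon c` and `R`: the determinant of `R` at the companion matrix -/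
noncomputable def RES {k L : Type} [Field k] [Field L] [Algebra k L] {n : ℕ} (c : Fin n → k)
    (R : L[X]) : L :=
  (aeval ((comp c).map (algebraMap k L)) R).det

/-- power sums of the roots of `mon c` -/
noncomputable def psm {k : Type} [Field k] {n : ℕ} (c : Fin n → k) (l : ℕ) : k :=
  ((comp c) ^ l).trace

/-- **Trace formula of Anderson**: `sum_c RES(c,R) u^(deg c) = det (1 - u U_q R)` -/
def S_TF : Prop := ∀ (k L : Type) [Field k] [Fintype k] [Field L] [Algebra k L] (R : L[X]) (M : ℕ),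
  R.natDegree ≤ (Fintype.card k - 1) * (M + 1) → ∀ n : ℕ,
  ((1 + (X : L[X]) • (-(AA (Fintype.card k) M R)).map C).det).coeff n = ∑ c : Fin n → k, RES c R

/-! ### Parts of the trace formula -/

/-- strictly decreasing index functions -/
noncomputable def St (n M : ℕ) : Finset (Fin n → Fin (M + 1)) :=
  open Classical in univ.filter StrictAnti

/-- exponents of total degree at most `M + 1 - n` (none if `n > M + 1`) -/
noncomputable def Bt (n M : ℕ) : Finset (Fin n →₀ ℕ) :=
  ((range (M + 2)).biUnion fun d => Finset.finsuppAntidiag univ d).filter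
    fun β => (∑ i, β i) + n ≤ M + 1

/-- `q t + (q-1)` in every coordinate -/
noncomputable def up (q : ℕ) {n : ℕ} (t : Fin n →₀ ℕ) : Fin n →₀ ℕ :=
  Finsupp.equivFunOnFinite.symm fun i => q * t i + (q - 1)

/-- the operator `U_q` in several variables -/
noncomputable def UM {L : Type} [CommSemiring L] (q : ℕ) {n : ℕ} (f : MvPolynomial (Fin n) L) :
    MvPolynomial (Fin n) L :=
  open Classical in ∑ s ∈ f.support, if ∀ i, s i % q = q - 1 then
    MvPolynomial.monomial (Finsupp.equivFunOnFinite.symm fun i => s i / q) (f.coeff s) else 0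

/-- the alternants `det (x_i ^ s_j)` -/
noncomputable def alt {L : Type} [CommRing L] {n : ℕ} (s : Fin n → ℕ) : MvPolynomial (Fin n) L :=
  (Matrix.of fun i j => (MvPolynomial.X i : MvPolynomial (Fin n) L) ^ s j).det

/-- the Vandermonde alternant, exponents `n-1, ..., 1, 0` -/
noncomputable def DD (L : Type) [CommRing L] (n : ℕ) : MvPolynomial (Fin n) L :=
  alt fun i => n - 1 - i

/-- substitute the elementary symmetric polynomials: the variable `i` becomes `e_(i+1)` -/
noncomputable def ee {L : Type} [CommRing L] {n : ℕ} (f : MvPolynomial (Fin n) L) :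
    MvPolynomial (Fin n) L :=
  (MvPolynomial.esymmAlgHom (Fin n) L n f : MvPolynomial (Fin n) L)

/-- `prod_l R(x_l)` -/
noncomputable def PR {L : Type} [CommRing L] (n : ℕ) (R : L[X]) : MvPolynomial (Fin n) L :=
  ∏ l : Fin n, aeval (MvPolynomial.X l : MvPolynomial (Fin n) L) R

/-- principal minors -/
def S_TA1 : Prop := ∀ (L : Type) [Field L] (q : ℕ) (R : L[X]) (M n : ℕ),
  ((1 + (X : L[X]) • (-(AA q M R)).map C).det).coeff n =
    (-1) ^ n * ∑ s ∈ St n M, ((AA q M R).submatrix s s).det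

/-- rules for `UM` -/
def S_TA2 : Prop := ∀ (L : Type) [Field L] (q : ℕ), 0 < q → ∀ (n : ℕ),
  (∀ (f : MvPolynomial (Fin n) L) (t : Fin n →₀ ℕ), (UM q f).coeff t = f.coeff (up q t)) ∧
  (∀ f g : MvPolynomial (Fin n) L, UM q (f + g) = UM q f + UM q g) ∧
  (∀ (a : L) (f : MvPolynomial (Fin n) L), UM q (a • f) = a • UM q f) ∧
  (∀ f g : MvPolynomial (Fin n) L, UM q (MvPolynomial.expand q f * g) = f * UM q g)

/-- action on alternants -/
def S_TA3 : Prop := ∀ (L : Type) [Field L] (q : ℕ), 0 < q → ∀ (M n : ℕ) (R : L[X]),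
  R.natDegree ≤ (q - 1) * (M + 1) → ∀ s ∈ St n M,
  UM q (PR n R * alt fun i => (s i : ℕ)) =
    ∑ s' ∈ St n M, ((AA q M R).submatrix s' s).det • alt fun i => (s' i : ℕ)

/-- a symmetric polynomial times the Vandermonde alternant is a combination of alternants -/
def S_TA4 : Prop := ∀ (L : Type) [Field L] (M n : ℕ) (f : MvPolynomial (Fin n) L),
  f.IsSymmetric → (∀ i, (DD L n * f).degreeOf i ≤ M) →
  DD L n * f = ∑ s ∈ St n M, (DD L n * f).coeff (Finsupp.equivFunOnFinite.symm fun i => (s i : ℕ)) •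
    alt fun i => (s i : ℕ)

/-- independence and count -/
def S_TA5 : Prop := ∀ (L : Type) [Field L] (M n : ℕ),
  LinearIndependent L (fun s : St n M => (alt (fun i => ((s : Fin n → Fin (M + 1)) i : ℕ)) :
    MvPolynomial (Fin n) L)) ∧
  LinearIndependent L (fun β : Bt n M => DD L n * ee (MvPolynomial.monomial (β : Fin n →₀ ℕ) 1)) ∧
  (St n M).card = (Bt n M).card ∧
  ∀ β ∈ Bt n M, ∀ i, (DD L n * ee (MvPolynomial.monomial β 1)).degreeOf i ≤ M

/-- the key computation -/
def S_TA6 : Prop := ∀ (L : Type) [Field L] (q : ℕ), 0 < q → ∀ (n : ℕ) (α : Fin n →₀ ℕ),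
  (∀ i, α i ≤ q - 1) → UM q (DD L n * ee (MvPolynomial.monomial α 1)) =
    open Classical in if ∀ i, α i = q - 1 then DD L n else 0

/-- `UM` in the coordinates `e` -/
def S_TA7 : Prop := ∀ (k L : Type) [Field k] [Fintype k] [Field L] [Algebra k L] (n : ℕ)
  (f : MvPolynomial (Fin n) L),
  UM (Fintype.card k) (DD L n * ee f) = DD L n * ee (UM (Fintype.card k) f)

/-- equality of the two traces -/
def S_TA8 : Prop := ∀ (k L : Type) [Field k] [Fintype k] [Field L] [Algebra k L] (M n : ℕ)
  (R : L[X]) (g : MvPolynomial (Fin n) L), R.natDegree ≤ (Fintype.card k - 1) * (M + 1) →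
  ee g = PR n R → g.totalDegree ≤ R.natDegree →
  ∑ s ∈ St n M, ((AA (Fintype.card k) M R).submatrix s s).det =
    ∑ β ∈ Bt n M, g.coeff (Finsupp.equivFunOnFinite.symm fun i => (Fintype.card k - 1) * (β i + 1))

/-- the sum over the points of affine space -/
def S_TA9 : Prop := ∀ (k L : Type) [Field k] [Fintype k] [Field L] [Algebra k L] (M n : ℕ)
  (g : MvPolynomial (Fin n) L), g.totalDegree ≤ (Fintype.card k - 1) * (M + 1) →
  ∑ c : Fin n → k, MvPolynomial.eval (fun i => algebraMap k L (c i)) g =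
    (-1) ^ n * ∑ β ∈ Bt n M,
      g.coeff (Finsupp.equivFunOnFinite.symm fun i => (Fintype.card k - 1) * (β i + 1))

/-- the resultant as a polynomial in the coefficients -/
def S_TA10 : Prop := ∀ (k L : Type) [Field k] [Fintype k] [Field L] [Algebra k L] (n : ℕ)
  (R : L[X]), ∃ g : MvPolynomial (Fin n) L, ee g = PR n R ∧ g.totalDegree ≤ R.natDegree ∧
    ∀ c : Fin n → k, RES c R =
      MvPolynomial.eval (fun i : Fin n => algebraMap k L ((-1) ^ ((i : ℕ) + 1) * c (Fin.rev i))) g

/-! ### Consequences -/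

/-- first order variation of the trace formula -/
def S_TFD : Prop := ∀ (k F : Type) [Field k] [Fintype k] [Field F] [Algebra k F] (R : F[X])
  (M l : ℕ), R.natDegree + l ≤ (Fintype.card k - 1) * (M + 1) →
  ∑ n ∈ range (M + 2), ∑ c : Fin n → k, RES c R * algebraMap k F (psm c l) =
    ((1 - (AA (Fintype.card k) M R).map C -
      (X : F[X]) • (AA (Fintype.card k) M (R * X ^ l)).map C).det).coeff 1

/-- linear algebra: a simple zero of a determinant -/
def S_LA : Prop := ∀ (F : Type) [Field F] (n : ℕ) (B Y : Matrix (Fin n) (Fin n) F)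
  (v w : Fin n → F), (∀ u, B.mulVec u = 0 → ∃ a : F, u = a • v) → B.mulVec v = 0 → v ≠ 0 →
  Matrix.vecMul w B = 0 → dotProduct w (Y.mulVec v) ≠ 0 →
  ((B.map C - (X : F[X]) • Y.map C).det).coeff 1 ≠ 0

/-- if all the sums vanish there are two independent fixed polynomials -/
def S_LV : Prop := ∀ (k F : Type) [Field k] [Fintype k] [Field F] [Algebra k F] (R : F[X]) (m : ℕ),
  R.Monic → R.natDegree = (Fintype.card k - 1) * (m + 1) →
  (∀ l ≤ m, ∃ M0, ∀ M ≥ M0,
    ∑ n ∈ range M, ∑ c : Fin n → k, RES c R * algebraMap k F (psm c l) = 0) →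
  ∃ h1 h2 : F[X], h1.natDegree ≤ m ∧ h2.natDegree ≤ m ∧ UU (Fintype.card k) (h1 * R) = h1 ∧
    UU (Fintype.card k) (h2 * R) = h2 ∧ LinearIndependent F ![h1, h2]

end Pool.Agent.W345.GK
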