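import Pool.Agent.W345.GK.Cls

set_option autoImplicit false

open Polynomial Finset
open scoped TensorProduct nonZeroDivisors

namespace Pool.Agent.W345.GK

/-! ### Intermediate statements of the last block -/

/-- torsion points in a domain -/
def S_CYA : Prop := ∀ (k : Type) [Field k] [Fintype k] (P : k[X]) (S : Type) [CommRing S]
  [IsDomain S] [Algebra k[X] S] (y : S), P.Monic → Irreducible P →
  Function.Injective (algebraMap k[X] S) → y ≠ 0 → aeval y (car P) = 0 →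
  (∀ a b : k[X], aeval y (car (a + b)) = aeval y (car a) + aeval y (car b)) ∧
  (∀ (u : k) (a : k[X]), aeval y (car (C u * a)) = algebraMap k[X] S (C u) * aeval y (car a)) ∧
  (∀ a : k[X], aeval y (car (X * a)) =
    algebraMap k[X] S X * aeval y (car a) + (aeval y (car a)) ^ Fintype.card k) ∧
  (∀ a : k[X], aeval y (car a) = 0 ↔ P ∣ a) ∧
  (∀ z : S, aeval z (car P) = 0 ↔ ∃ a : k[X], z = aeval y (car a)) ∧
  (∀ a b : k[X], aeval y (car (a * b)) = aeval (aeval y (car b)) (car a))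

/-- `C_P / X` is an Eisenstein polynomial -/
def S_CYB : Prop := ∀ (k : Type) [Field k] [Fintype k] (P : k[X]), P.Monic → Irreducible P →
  ∃ Ψ : (k[X])[X], car P = X * Ψ ∧ Ψ.Monic ∧ Ψ.natDegree = Fintype.card k ^ P.natDegree - 1 ∧
    0 < Ψ.natDegree ∧ Ψ.coeff 0 = P ∧ Irreducible Ψ ∧
    Irreducible (Ψ.map (algebraMap k[X] (RatFunc k))) ∧
    derivative (car P) = C P ∧ Ψ + X * derivative Ψ = C P ∧
    ((car P).map (algebraMap k[X] (RatFunc k))).Separable ∧
    (Ψ.map (algebraMap k[X] (RatFunc k))).Separable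

/-- elements integral outside `P` are polynomials in `λ` divided by powers of `P` -/
def S_OPG : Prop := ∀ (k Fc : Type) [Field k] [Fintype k] [Field Fc]
  [Algebra k[X] Fc] [Algebra (RatFunc k) Fc] [IsScalarTower k[X] (RatFunc k) Fc]
  [FiniteDimensional (RatFunc k) Fc] [Algebra.IsSeparable (RatFunc k) Fc] (P : k[X])
  (c : CycD k Fc P), P.Monic → Irreducible P →
  Module.finrank (RatFunc k) Fc = Fintype.card k ^ P.natDegree - 1 → ∀ y : Fc,
  OP P y ↔ ∃ (n : ℕ) (f : (k[X])[X]), (algebraMap k[X] Fc P) ^ n * y = aeval (c.lam 1) f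

/-- Jacobson's formula for a derivation whose `p`-th power is zero -/
def S_JCF : Prop := ∀ (E : Type) [Field E] (p : ℕ) [Fact p.Prime] [CharP E p] (D : E → E),
  (∀ x y, D (x + y) = D x + D y) → (∀ x y, D (x * y) = x * D y + y * D x) →
  (∀ x, D^[p] x = 0) → ∀ y : E, y ^ p = - (D^[p - 1] y) → ∀ x : E,
  (fun z => D z - y * z)^[p] x = 0

/-- quotients of torsion points are units -/
def S_LAU : Prop := ∀ (k Fc : Type) [Field k] [Fintype k] [Field Fc] [Algebra k[X] Fc]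
  (P : k[X]) (c : CycD k Fc P), P.Monic → Irreducible P → ∀ a : k[X], ¬ P ∣ a →
  c.lam a = aeval (c.lam 1) (car a) ∧ IsIntegral k[X] (c.lam a) ∧ c.lam a ≠ 0 ∧
  IsIntegral k[X] (c.lam a / c.lam 1) ∧ IsIntegral k[X] (c.lam 1 / c.lam a)

/-- `λ` generates the only prime ideal above `P` -/
def S_LAM : Prop := ∀ (k Fc : Type) [Field k] [Fintype k] [Field Fc]
  [Algebra k[X] Fc] [Algebra (RatFunc k) Fc] [IsScalarTower k[X] (RatFunc k) Fc]
  [FiniteDimensional (RatFunc k) Fc] [Algebra.IsSeparable (RatFunc k) Fc]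
  [IsDedekindDomain (integralClosure k[X] Fc)] [IsFractionRing (integralClosure k[X] Fc) Fc]
  (P : k[X]) (c : CycD k Fc P), P.Monic → Irreducible P →
  Module.finrank (RatFunc k) Fc = Fintype.card k ^ P.natDegree - 1 →
  ∀ l : integralClosure k[X] Fc, (l : Fc) = c.lam 1 →
  (Ideal.span {l}).IsPrime ∧ l ≠ 0 ∧
  ∀ 𝔭 : Ideal (integralClosure k[X] Fc), 𝔭.IsPrime →
    algebraMap k[X] (integralClosure k[X] Fc) P ∈ 𝔭 → 𝔭 = Ideal.span {l}

/-- units (outside `P`) of order zero at all infinite places are roots of unity -/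
def S_UNK : Prop := ∀ (k F Fc : Type) [Field k] [Fintype k] [Field F] [Algebra k F]
  [Field Fc] [Algebra k[X] Fc] (P : k[X]) (c : CycD k Fc P) (Lam : k[X] → LS F)
  (ι : Fc →+* LS F), P.Monic → Irreducible P → IsLam k F P Lam → IsEmb k F Fc c Lam ι →
  ∀ (f u : Fc) (m : ℤ), u ≠ 0 → IsIntegral k[X] u → IsIntegral k[X] u⁻¹ →
  f = (c.lam 1) ^ m * u → (∀ a : k[X], ¬ P ∣ a → (ι (c.sg a f)).order = 0) →
  f ^ (Fintype.card k - 1) = 1

/-- the class attached to a logarithmic derivative that is integral outside `P` -/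
def S_CLM : Prop := ∀ (k F Fc : Type) [Field k] [Fintype k] [Field F] [Algebra k F] [Field Fc]
  [Algebra k[X] Fc] [Algebra (RatFunc k) Fc] [IsScalarTower k[X] (RatFunc k) Fc]
  [FiniteDimensional (RatFunc k) Fc] [Algebra.IsSeparable (RatFunc k) Fc]
  [IsDedekindDomain (integralClosure k[X] Fc)] [IsFractionRing (integralClosure k[X] Fc) Fc]
  (p : ℕ) [Fact p.Prime] [CharP k p] (P : k[X])
  (c : CycD k Fc P) (ι : Fc →+* LS F) (D : Fc → Fc), P.Monic → Irreducible P →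
  Module.finrank (RatFunc k) Fc = Fintype.card k ^ P.natDegree - 1 →
  IsDer k F Fc c ι D → ∃ cl : Fcˣ → tors p (Cl k Fc),
    (∀ f g : Fcˣ, OP P (D (f : Fc) / f) → OP P (D (g : Fc) / g) → cl (f * g) = cl f + cl g) ∧
    (∀ f : Fcˣ, OP P (D (f : Fc) / f) → cl f = 0 → ∃ (g u : Fcˣ) (r : ℤ),
      IsIntegral k[X] (u : Fc) ∧ IsIntegral k[X] ((u : Fc)⁻¹) ∧
        (f : Fc) = (g : Fc) ^ p * (c.lam 1) ^ r * u) ∧
    ∀ (a : k[X]) (f : Fcˣ), ¬ P ∣ a → OP P (D (f : Fc) / f) →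
      cl (Units.map ((c.sg a : Fc ≃ₐ[k[X]] Fc) : Fc →* Fc) f) =
        torsMap p (clMap (c.sg a)) (cl f)

/-- the eigenvectors attached to polynomials, and the embedding of `F ⊗ Fc` -/
def S_XH1 : Prop := ∀ (k F Fc : Type) [Field k] [Fintype k] [Field F] [Finite F] [Algebra k F]
  [Field Fc] [Algebra k Fc] [Algebra k[X] Fc] [IsScalarTower k k[X] Fc] (P : k[X]) (θ : F) (κ : ℕ)
  (c : CycD k Fc P) (Lam : k[X] → LS F) (ι : Fc →+* LS F), P.Monic → Irreducible P →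
  aeval θ P = 0 → IsLam k F P Lam → IsEmb k F Fc c Lam ι → 0 < κ →
  κ < Fintype.card k ^ P.natDegree - 1 → (Fintype.card k - 1) ∣ κ →
  ∃ (J : F ⊗[k] Fc →+* LS F) (E : F[X] →ₗ[F] F ⊗[k] Fc), Function.Injective J ∧
    (∀ (u : F) (y : Fc), J (u ⊗ₜ[k] y) = HahnSeries.C u * ι y) ∧
    (∀ h : F[X], J (E h) = iF (Fintype.card k) h / iA P * GG P θ Lam κ) ∧
    Function.Injective E ∧
    (∀ (h : F[X]) (a : k[X]), ¬ P ∣ a → sgT c a (E h) = (aeval θ a) ^ κ • E h) ∧
    ∀ h : F[X], ∃ (n : ℕ) (u : Fin n → F) (y : Fin n → Fc), (∀ i, OP P (y i)) ∧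
      E h = ∑ i, u i ⊗ₜ[k] y i

end Pool.Agent.W345.GK
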