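import Pool.Agent.W345.GK.Main
import Pool.Agent.W120.GK.BER
import Pool.Agent.W120.GK.NN
import Pool.Agent.W45.GK.CYA
import Pool.Agent.W561.GK.Cyb
import Pool.Agent.W140.GK.CYC
import Pool.Agent.W765.GK.Embd
import Pool.Agent.W918.GK.Opg
import Pool.Agent.W683.GK.Der
import Pool.Agent.W155.GK.Car
import Pool.Agent.W99.GK.Jcf
import Pool.Agent.W822.GK.Jac
import Pool.Agent.W63.GK.Spn
import Pool.Agent.W486.GK.Lau
import Pool.Agent.W230.GK.Lam
import Pool.Agent.W880.GK.IDL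
import Pool.Agent.W538.GK.Clm
import Pool.Agent.W490.GK.XH1
import Pool.Agent.W806.GK.XH
import Pool.Agent.W692.GK.Lat
import Pool.Agent.W409.GK.UNK
import Pool.Agent.W768.GK.Uni
import Pool.Agent.W304.GK.TOR
import Pool.Agent.W382.GK.WIT

set_option autoImplicit false

namespace Pool.Agent.W345.GK

theorem h_cyb : S_CYB := Pool.Agent.W561.GK.cyb h_c1 h_c2

theorem h_cyc : S_CYC := Pool.Agent.W140.GK.cyc h_c1 (Pool.Agent.W45.GK.cya h_c1) h_cyb

theorem h_embd : S_EMBD := Pool.Agent.W765.GK.Embd.embd h_c1 h_cyb h_i1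

theorem h_der : S_DER := Pool.Agent.W683.GK.der h_c1 h_i1 (Pool.Agent.W918.GK.opg h_cyb)

theorem h_car : S_CAR := Pool.Agent.W155.GK.carOK h_c1 h_i1

theorem h_jac : S_JAC := Pool.Agent.W822.GK.Jac.jac h_car Pool.Agent.W99.GK.jcf

theorem h_spn : S_SPN := Pool.Agent.W63.GK.spn h_car h_jac

theorem h_lau : S_LAU := Pool.Agent.W486.GK.lau h_c1

theorem h_lam : S_LAM := Pool.Agent.W230.GK.lamOK h_cyb h_lau

theorem h_idl : S_IDL := Pool.Agent.W880.GK.IDL.idl h_c1 h_lam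

theorem h_clm : S_CLM := Pool.Agent.W538.GK.clm h_lam h_lau h_idl

theorem h_xh : S_XH :=
  Pool.Agent.W806.GK.xh (Pool.Agent.W490.GK.XH1.xh1 h_c1 h_c3 h_i1 h_gs) h_fx h_spn

theorem h_uni : S_UNI :=
  Pool.Agent.W768.GK.uni h_lau h_rho h_c3 (Pool.Agent.W409.GK.unk h_i1 h_c1 h_c2 h_lau)
    Pool.Agent.W692.GK.lat

theorem h_tor : S_TOR := Pool.Agent.W304.GK.TOR.tor h_c3 h_rho h_xh h_uni h_clm

theorem h_wit : S_WIT := Pool.Agent.W382.GK.WIT.wit h_c1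

theorem main : S_MAIN :=
  main_of (Pool.Agent.W120.GK.ber h_c3) Pool.Agent.W120.GK.nn_ok h_cyc h_embd h_der h_tor h_wit

end Pool.Agent.W345.GK
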