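import Pool.Agent.W345.GK.Gau

set_option autoImplicit false

open Polynomial Finset
open scoped TensorProduct nonZeroDivisors

namespace Pool.Agent.W345.GK

/-! ### Definitions of the final statement -/

/-- `D_i = prod_(j<i) (T^(q^i) - T^(q^j))` -/
noncomputable def Dc (k : Type) [Field k] [Fintype k] (i : ℕ) : k[X] :=
  ∏ j ∈ range i, (X ^ (Fintype.card k ^ i) - X ^ (Fintype.card k ^ j))

/-- the power series `e(z)/z = sum z^(q^i - 1) / D_i` -/
noncomputable def eDivZ (k : Type) [Field k] [Fintype k] : PowerSeries (RatFunc k) :=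
  PowerSeries.mk fun n =>
    if Fintype.card k ^ (Nat.log (Fintype.card k) (n + 1)) = n + 1 then
      (algebraMap k[X] (RatFunc k) (Dc k (Nat.log (Fintype.card k) (n + 1))))⁻¹ else 0

/-- the Carlitz factorial -/
noncomputable def carFac (k : Type) [Field k] [Fintype k] (n : ℕ) : k[X] :=
  ∏ i ∈ range (n + 1), Dc k i ^ (n / Fintype.card k ^ i % Fintype.card k)

/-- the Bernoulli-Carlitz numbers: `z / e(z) = sum (BC n / Π(n)) z^n` -/
noncomputable def BC (k : Type) [Field k] [Fintype k] (n : ℕ) : RatFunc k :=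
  algebraMap k[X] (RatFunc k) (carFac k n) * PowerSeries.coeff n (eDivZ k)⁻¹

/-- `P` divides the rational function `x` (positive valuation at `P`) -/
def PDiv {k : Type} [Field k] (P : k[X]) (x : RatFunc k) : Prop :=
  ∃ a b : k[X], ¬ P ∣ b ∧ x * algebraMap k[X] (RatFunc k) b = algebraMap k[X] (RatFunc k) (P * a)

/-- the `p`-primary part of a commutative group -/
def pPart (p : ℕ) (G : Type) [AddCommGroup G] : AddSubgroup G where
  carrier := {x | ∃ n : ℕ, p ^ n • x = 0}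
  zero_mem' := ⟨0, by simp⟩
  add_mem' := by
    rintro x y ⟨n, hn⟩ ⟨m, hm⟩
    refine ⟨n + m, ?_⟩
    rw [smul_add, pow_add, mul_comm (p ^ n), mul_smul, hn, smul_zero, mul_comm, mul_smul, hm,
      smul_zero, add_zero]
  neg_mem' := by
    rintro x ⟨n, hn⟩
    exact ⟨n, by rw [smul_neg, hn, neg_zero]⟩

/-- the map induced on the `p`-primary part -/
def pPartMap (p : ℕ) {G : Type} [AddCommGroup G] (f : G →+ G) : pPart p G →+ pPart p G where
  toFun x := ⟨f x, by
    obtain ⟨n, hn⟩ := x.2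
    exact ⟨n, by rw [← map_nsmul, hn, map_zero]⟩⟩
  map_zero' := by ext; simp
  map_add' x y := by ext; simp

section
variable {k Fc : Type} [Field k] [Fintype k] [Field Fc] [Algebra k[X] Fc]

/-- the class group of the integral closure of `k[X]` in `Fc`, written additively -/
abbrev Cl (k Fc : Type) [Field k] [Field Fc] [Algebra k[X] Fc] : Type :=
  Additive (ClassGroup (integralClosure k[X] Fc))

/-- the action of an automorphism on the class group -/
noncomputable def clMap (σ : Fc ≃ₐ[k[X]] Fc) : Cl k Fc →+ Cl k Fc :=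
  ((ClassGroup.mulEquiv (σ.mapIntegralClosure.toRingEquiv :
    integralClosure k[X] Fc ≃+* integralClosure k[X] Fc)).toMonoidHom).toAdditive

/-- the component of `p`-primary part of the class group tensored with the Witt vectors of
`k[X]/P`, on which `(k[X]/P)^*` acts by the `κ`-th power of the Teichmueller character,
is not zero -/
def CompNZ (p : ℕ) [Fact p.Prime] (P : k[X]) (Fc : Type) [Field Fc] [Algebra k[X] Fc] (κ : ℕ) :
    Prop :=
  ∃ x : (WittVector p (k[X] ⧸ Ideal.span {P})) ⊗[ℤ] (pPart p (Cl k Fc)), x ≠ 0 ∧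
    ∀ (a : k[X]) (σ : Fc ≃ₐ[k[X]] Fc), ¬ P ∣ a →
      (∀ y : Fc, aeval y (car P) = 0 → σ y = aeval y (car a)) →
      LinearMap.lTensor (WittVector p (k[X] ⧸ Ideal.span {P}))
        (pPartMap p (clMap σ)).toIntLinearMap x =
      (WittVector.teichmuller p (Ideal.Quotient.mk (Ideal.span {P}) a)) ^ κ • x

end

/-- the final theorem -/
def S_MAIN : Prop := ∀ (k : Type) [Field k] [Fintype k] (p : ℕ) [Fact p.Prime] [CharP k p]
  (P : k[X]) (Fc : Type) [Field Fc] [Algebra k[X] Fc] [Algebra (RatFunc k) Fc]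
  [IsScalarTower k[X] (RatFunc k) Fc]
  [IsSplittingField (RatFunc k) Fc ((car P).map (algebraMap k[X] (RatFunc k)))] (κ : ℕ),
  P.Monic → Irreducible P → 0 < κ → κ < Fintype.card k ^ P.natDegree - 1 →
  (Fintype.card k - 1) ∣ κ →
  (∀ κ' : ℕ, 0 < κ' → κ' < Fintype.card k ^ P.natDegree - 1 →
    (∃ m : ℕ, κ' ≡ p ^ m * κ [MOD Fintype.card k ^ P.natDegree - 1]) → PDiv P (BC k κ')) →
  CompNZ p P Fc κ

/-! ### Bernoulli numbers modulo `P` -/

/-- reduction of the Bernoulli-Carlitz numbers -/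
def S_BER : Prop := ∀ (k F : Type) [Field k] [Fintype k] [Field F] [Algebra k F] (P : k[X]) (θ : F)
  (n : ℕ), P.Monic → Irreducible P → aeval θ P = 0 → n < Fintype.card k ^ P.natDegree - 1 →
  PDiv P (BC k n) → (bet (Fintype.card k) P.natDegree θ).coeff n = 0

/-- the exponents `n_i` are in the orbit of `κ` -/
def S_NN : Prop := ∀ (q d κ i : ℕ), 1 < q → 0 < d → 0 < κ → κ < q ^ d - 1 → i < d →
  0 < nn q d κ i ∧ nn q d κ i < q ^ d - 1 ∧ ∃ m : ℕ, nn q d κ i ≡ q ^ m * κ [MOD q ^ d - 1]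

/-! ### The cyclotomic field -/

/-- torsion points and Galois group of the Carlitz cyclotomic field -/
structure CycD (k Fc : Type) [Field k] [Fintype k] [Field Fc] [Algebra k[X] Fc] (P : k[X]) where
  lam : k[X] → Fc
  add : ∀ a b, lam (a + b) = lam a + lam b
  smul : ∀ (u : k) (a : k[X]), lam (C u * a) = algebraMap k[X] Fc (C u) * lam a
  mulX : ∀ a : k[X], lam (X * a) = algebraMap k[X] Fc X * lam a + (lam a) ^ Fintype.card k
  zero_iff : ∀ a, lam a = 0 ↔ P ∣ a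
  roots : ∀ y : Fc, aeval y (car P) = 0 ↔ ∃ a, y = lam a
  inj : Function.Injective (algebraMap k[X] Fc)
  gen : ∀ y : Fc, ∃ (b : k[X]) (f : (k[X])[X]), b ≠ 0 ∧ algebraMap k[X] Fc b * y = aeval (lam 1) f
  sg : k[X] → (Fc ≃ₐ[k[X]] Fc)
  sg_lam : ∀ a b, ¬ P ∣ a → sg a (lam b) = lam (a * b)
  sg_mod : ∀ a b, ¬ P ∣ a → P ∣ a - b → sg a = sg b
  sg_mul : ∀ a b, ¬ P ∣ a → ¬ P ∣ b → sg (a * b) = (sg a).trans (sg b)
  sg_surj : ∀ σ : Fc ≃ₐ[k[X]] Fc, ∃ a, ¬ P ∣ a ∧ σ = sg a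
  fixed : ∀ y : Fc, (∀ a, ¬ P ∣ a → sg a y = y) →
    ∃ a b : k[X], b ≠ 0 ∧ y * algebraMap k[X] Fc b = algebraMap k[X] Fc a

/-- existence of these data -/
def S_CYC : Prop := ∀ (k : Type) [Field k] [Fintype k] (P : k[X]) (Fc : Type) [Field Fc]
  [Algebra k[X] Fc] [Algebra (RatFunc k) Fc] [IsScalarTower k[X] (RatFunc k) Fc]
  [IsSplittingField (RatFunc k) Fc ((car P).map (algebraMap k[X] (RatFunc k)))],
  P.Monic → Irreducible P → Nonempty (CycD k Fc P) ∧ FiniteDimensional (RatFunc k) Fc ∧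
    Algebra.IsSeparable (RatFunc k) Fc ∧
    Module.finrank (RatFunc k) Fc = Fintype.card k ^ P.natDegree - 1 ∧
    IsDedekindDomain (integralClosure k[X] Fc) ∧ IsFractionRing (integralClosure k[X] Fc) Fc

/-- embedding at infinity -/
structure IsEmb (k F Fc : Type) [Field k] [Fintype k] [Field F] [Algebra k F] [Field Fc]
    [Algebra k[X] Fc] {P : k[X]} (c : CycD k Fc P) (Lam : k[X] → LS F) (ι : Fc →+* LS F) :
    Prop where
  base : ∀ a : k[X], ι (algebraMap k[X] Fc a) = iA a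
  lam : ∀ a : k[X], ι (c.lam a) = Lam a
  rat : ∀ y : Fc, KR k (ι y)

/-- existence of the embedding -/
def S_EMBD : Prop := ∀ (k F Fc : Type) [Field k] [Fintype k] [Field F] [Algebra k F] [Field Fc]
  [Algebra k[X] Fc] [Algebra (RatFunc k) Fc] [IsScalarTower k[X] (RatFunc k) Fc]
  [FiniteDimensional (RatFunc k) Fc] (P : k[X]) (c : CycD k Fc P) (Lam : k[X] → LS F), P.Monic → Irreducible P →
  IsLam k F P Lam → ∃ ι : Fc →+* LS F, IsEmb k F Fc c Lam ι

/-- elements integral outside `P` -/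
def OP {k Fc : Type} [Field k] [Field Fc] [Algebra k[X] Fc] (P : k[X]) (y : Fc) : Prop :=
  ∃ n : ℕ, IsIntegral k[X] ((algebraMap k[X] Fc P) ^ n * y)

/-- the derivation `d/dT` of the cyclotomic field -/
structure IsDer (k F Fc : Type) [Field k] [Fintype k] [Field F] [Algebra k F] [Field Fc]
    [Algebra k[X] Fc] {P : k[X]} (c : CycD k Fc P) (ι : Fc →+* LS F) (D : Fc → Fc) : Prop where
  add : ∀ x y, D (x + y) = D x + D y
  mul : ∀ x y, D (x * y) = x * D y + y * D x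
  base : ∀ a : k[X], D (algebraMap k[X] Fc a) = algebraMap k[X] Fc (derivative a)
  emb : ∀ y, ι (D y) = Dx (Fintype.card k) (ι y)
  gal : ∀ a y, ¬ P ∣ a → D (c.sg a y) = c.sg a (D y)
  op : ∀ y, OP P y → OP P (D y)

/-- existence of the derivation -/
def S_DER : Prop := ∀ (k F Fc : Type) [Field k] [Fintype k] [Field F] [Algebra k F] [Field Fc]
  [Algebra k[X] Fc] [Algebra (RatFunc k) Fc] [IsScalarTower k[X] (RatFunc k) Fc]
  [FiniteDimensional (RatFunc k) Fc] [Algebra.IsSeparable (RatFunc k) Fc] (P : k[X])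
  (c : CycD k Fc P) (Lam : k[X] → LS F) (ι : Fc →+* LS F), P.Monic → Irreducible P →
  Module.finrank (RatFunc k) Fc = Fintype.card k ^ P.natDegree - 1 →
  IsLam k F P Lam → IsEmb k F Fc c Lam ι → ∃ D : Fc → Fc, IsDer k F Fc c ι D

/-- the Cartier operator of the cyclotomic field -/
def S_CAR : Prop := ∀ (k F Fc : Type) [Field k] [Fintype k] [Field F] [Algebra k F] [Field Fc]
  [Algebra k[X] Fc] (p : ℕ) [Fact p.Prime] [CharP k p] (P : k[X])
  (c : CycD k Fc P) (Lam : k[X] → LS F) (ι : Fc →+* LS F) (D : Fc → Fc), P.Monic → Irreducible P →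
  IsLam k F P Lam → IsEmb k F Fc c Lam ι → IsDer k F Fc c ι D → ∀ b : Fc, ∃ b' : Fc,
    b' ^ p = - (D^[p - 1] b) ∧ (OP P b → OP P b') ∧
    ∀ j : ℤ, ((ι b').coeff j) ^ p = (ι b).coeff (p * j - ((p : ℤ) - 1) * ((Fintype.card k : ℤ) - 1))

/-- elements fixed by the Cartier operator are logarithmic derivatives -/
def S_JAC : Prop := ∀ (k F Fc : Type) [Field k] [Fintype k] [Field F] [Algebra k F] [Field Fc]
  [Algebra k[X] Fc] (p : ℕ) [Fact p.Prime] [CharP k p] (P : k[X])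
  (c : CycD k Fc P) (Lam : k[X] → LS F) (ι : Fc →+* LS F) (D : Fc → Fc), P.Monic → Irreducible P →
  IsLam k F P Lam → IsEmb k F Fc c Lam ι → IsDer k F Fc c ι D → ∀ y : Fc,
    y ^ p = - (D^[p - 1] y) → ∃ f : Fc, f ≠ 0 ∧ D f = y * f

/-- elements of `OP` fixed by the `q`-Cartier operator -/
def S_SPN : Prop := ∀ (k F Fc : Type) [Field k] [Fintype k] [Field F] [Algebra k F] [Field Fc]
  [Algebra k[X] Fc] (p : ℕ) [Fact p.Prime] [CharP k p] (P : k[X])
  (c : CycD k Fc P) (Lam : k[X] → LS F) (ι : Fc →+* LS F) (D : Fc → Fc), P.Monic → Irreducible P →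
  IsLam k F P Lam → IsEmb k F Fc c Lam ι → IsDer k F Fc c ι D → ∀ b : Fc, OP P b →
    Fixd (Fintype.card k) (ι b) → ∃ (n : ℕ) (u : Fin n → k) (f : Fin n → Fc),
      (∀ i, f i ≠ 0 ∧ OP P (D (f i) / f i)) ∧
      b = ∑ i, algebraMap k[X] Fc (C (u i)) * (D (f i) / f i)

/-- the ideals attached to logarithmic derivatives that are integral outside `P` -/
def S_IDL : Prop := ∀ (k F Fc : Type) [Field k] [Fintype k] [Field F] [Algebra k F] [Field Fc]
  [Algebra k[X] Fc] [Algebra (RatFunc k) Fc] [IsScalarTower k[X] (RatFunc k) Fc]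
  [FiniteDimensional (RatFunc k) Fc] [Algebra.IsSeparable (RatFunc k) Fc]
  [IsDedekindDomain (integralClosure k[X] Fc)] [IsFractionRing (integralClosure k[X] Fc) Fc]
  (p : ℕ) [Fact p.Prime] [CharP k p] (P : k[X])
  (c : CycD k Fc P) (ι : Fc →+* LS F) (D : Fc → Fc), P.Monic → Irreducible P →
  Module.finrank (RatFunc k) Fc = Fintype.card k ^ P.natDegree - 1 →
  IsDer k F Fc c ι D → ∀ (f l : Fcˣ), OP P (D (f : Fc) / f) → (l : Fc) = c.lam 1 →
  ∃ (I : (FractionalIdeal (integralClosure k[X] Fc)⁰ Fc)ˣ) (r : ℤ),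
    toPrincipalIdeal (integralClosure k[X] Fc) Fc f =
      I ^ p * toPrincipalIdeal (integralClosure k[X] Fc) Fc l ^ r

/-! ### Tensor products -/

/-- the action of `sg a` on `F ⊗ Fc` -/
noncomputable def sgT {k F Fc : Type} [Field k] [Fintype k] [Field F] [Algebra k F] [Field Fc]
    [Algebra k Fc] [Algebra k[X] Fc] [IsScalarTower k k[X] Fc] {P : k[X]} (c : CycD k Fc P)
    (a : k[X]) : F ⊗[k] Fc →ₐ[F] F ⊗[k] Fc :=
  Algebra.TensorProduct.map (AlgHom.id F F) ((c.sg a).restrictScalars k : Fc →ₐ[k] Fc)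

/-- the projector on the `ψ`-component, `ψ(a) = a(θ)^κ` -/
noncomputable def proj {k F Fc : Type} [Field k] [Fintype k] [Field F] [Algebra k F] [Field Fc]
    [Algebra k Fc] [Algebra k[X] Fc] [IsScalarTower k k[X] Fc] {P : k[X]} (c : CycD k Fc P)
    (θ : F) (κ : ℕ) (z : F ⊗[k] Fc) : F ⊗[k] Fc :=
  - ∑ a : Fin P.natDegree → k, rho P.natDegree θ κ (pol a) • sgT c (pol a) z

/-- fixed polynomials give logarithmic eigenvectors -/
def S_XH : Prop := ∀ (k F Fc : Type) [Field k] [Fintype k] [Field F] [Finite F] [Algebra k F]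
  [Field Fc] [Algebra k Fc] [Algebra k[X] Fc] [IsScalarTower k k[X] Fc] (p : ℕ) [Fact p.Prime]
  [CharP k p] (P : k[X]) (θ : F) (κ : ℕ)
  (c : CycD k Fc P) (Lam : k[X] → LS F) (ι : Fc →+* LS F) (D : Fc → Fc), P.Monic → Irreducible P →
  aeval θ P = 0 → IsLam k F P Lam → IsEmb k F Fc c Lam ι → IsDer k F Fc c ι D → 0 < κ →
  κ < Fintype.card k ^ P.natDegree - 1 → (Fintype.card k - 1) ∣ κ →
  ∃ E : F[X] →ₗ[F] F ⊗[k] Fc, Function.Injective E ∧ ∀ h : F[X],
    UU (Fintype.card k) (h * RR (Fintype.card k) P.natDegree θ κ) = h →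
    (∀ a : k[X], ¬ P ∣ a → sgT c a (E h) = (aeval θ a) ^ κ • E h) ∧
    ∃ (n : ℕ) (u : Fin n → F) (f : Fin n → Fc), (∀ i, f i ≠ 0 ∧ OP P (D (f i) / f i)) ∧
      E h = ∑ i, u i ⊗ₜ[k] (D (f i) / f i)

/-- lattice lemma: the `χ`-component of `F ⊗ U` has dimension at most one -/
def S_LAT : Prop := ∀ (F : Type) [Field F] [Finite F] (p : ℕ) [Fact p.Prime] [CharP F p]
  (G : Type) [CommGroup G] [Fintype G] (χ : G →* Fˣ), ¬ p ∣ Fintype.card G →
  ∀ (U : Type) [AddCommGroup U] (act : G →* AddMonoid.End U) (v : U →+ ℤ) (n : ℕ), ¬ p ∣ n →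
  (∀ u : U, (∀ g : G, v (act g u) = 0) → n • u = 0) →
  ∃ w : F ⊗[ℤ] U, ∀ z : F ⊗[ℤ] U, ∃ s : F,
    ∑ g : G, (((χ g)⁻¹ : Fˣ) : F) •
      (LinearMap.lTensor F (AddMonoidHom.toIntLinearMap (act g))) z = s • w

/-- the units contribute at most one dimension -/
def S_UNI : Prop := ∀ (k F Fc : Type) [Field k] [Fintype k] [Field F] [Finite F] [Algebra k F]
  [Field Fc] [Algebra k Fc] [Algebra k[X] Fc] [IsScalarTower k k[X] Fc] (p : ℕ) [Fact p.Prime]
  [CharP k p] (P : k[X]) (θ : F) (κ : ℕ)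
  (c : CycD k Fc P) (Lam : k[X] → LS F) (ι : Fc →+* LS F) (D : Fc → Fc), P.Monic → Irreducible P →
  aeval θ P = 0 → IsLam k F P Lam → IsEmb k F Fc c Lam ι → IsDer k F Fc c ι D → 0 < κ →
  κ < Fintype.card k ^ P.natDegree - 1 → (Fintype.card k - 1) ∣ κ →
  ∃ w : F ⊗[k] Fc, ∀ f : Fc, (f = c.lam 1 ∨ (f ≠ 0 ∧ IsIntegral k[X] f ∧ IsIntegral k[X] f⁻¹)) →
    ∃ s : F, proj c θ κ (1 ⊗ₜ[k] (D f / f)) = s • w

/-- the `p`-torsion of a commutative group -/
def tors (p : ℕ) (G : Type) [AddCommGroup G] : AddSubgroup G where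
  carrier := {x | p • x = 0}
  zero_mem' := by simp
  add_mem' := by
    intro x y hx hy
    simp only [Set.mem_ofPred_eq] at *
    rw [smul_add, hx, hy, add_zero]
  neg_mem' := by
    intro x hx
    simp only [Set.mem_ofPred_eq] at *
    rw [smul_neg, hx, neg_zero]

/-- the map induced on the `p`-torsion -/
def torsMap (p : ℕ) {G : Type} [AddCommGroup G] (f : G →+ G) : tors p G →+ tors p G where
  toFun x := ⟨f x, by
    have hx := x.2
    change p • f x = 0
    rw [← map_nsmul, show p • (x : G) = 0 from hx, map_zero]⟩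
  map_zero' := by ext; simp
  map_add' x y := by ext; simp

/-- two independent eigenvectors force a class of order `p` -/
def S_TOR : Prop := ∀ (k F Fc : Type) [Field k] [Fintype k] [Field F] [Finite F] [Algebra k F]
  [Field Fc] [Algebra k Fc] [Algebra k[X] Fc] [IsScalarTower k k[X] Fc]
  [Algebra (RatFunc k) Fc] [IsScalarTower k[X] (RatFunc k) Fc]
  [FiniteDimensional (RatFunc k) Fc] [Algebra.IsSeparable (RatFunc k) Fc]
  [IsDedekindDomain (integralClosure k[X] Fc)] [IsFractionRing (integralClosure k[X] Fc) Fc]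
  (p : ℕ) [Fact p.Prime] [CharP k p] (P : k[X]) (θ : F) (κ : ℕ)
  (c : CycD k Fc P) (Lam : k[X] → LS F) (ι : Fc →+* LS F) (D : Fc → Fc), P.Monic → Irreducible P →
  Module.finrank (RatFunc k) Fc = Fintype.card k ^ P.natDegree - 1 →
  aeval θ P = 0 → IsLam k F P Lam → IsEmb k F Fc c Lam ι → IsDer k F Fc c ι D → 0 < κ →
  κ < Fintype.card k ^ P.natDegree - 1 → (Fintype.card k - 1) ∣ κ →
  (∃ h1 h2 : F[X], UU (Fintype.card k) (h1 * RR (Fintype.card k) P.natDegree θ κ) = h1 ∧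
    UU (Fintype.card k) (h2 * RR (Fintype.card k) P.natDegree θ κ) = h2 ∧
    LinearIndependent F ![h1, h2]) →
  ∃ x : F ⊗[ℤ] (tors p (Cl k Fc)), x ≠ 0 ∧ ∀ a : k[X], ¬ P ∣ a →
    LinearMap.lTensor F (torsMap p (clMap (c.sg a))).toIntLinearMap x = (aeval θ a) ^ κ • x

/-- from the `p`-torsion to the Witt vector component -/
def S_WIT : Prop := ∀ (k Fc : Type) [Field k] [Fintype k] [Field Fc] [Algebra k[X] Fc]
  (p : ℕ) [Fact p.Prime] [CharP k p] (P : k[X]) [Fact (Irreducible P)] (κ : ℕ) (c : CycD k Fc P),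
  (∃ x : (k[X] ⧸ Ideal.span {P}) ⊗[ℤ] (tors p (Cl k Fc)), x ≠ 0 ∧ ∀ a : k[X], ¬ P ∣ a →
    LinearMap.lTensor (k[X] ⧸ Ideal.span {P}) (torsMap p (clMap (c.sg a))).toIntLinearMap x =
      (Ideal.Quotient.mk (Ideal.span {P}) a) ^ κ • x) → CompNZ p P Fc κ

end Pool.Agent.W345.GK
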