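import Pool.Agent.W345.GK.Inf

set_option autoImplicit false

open Polynomial Finset

namespace Pool.Agent.W345.GK

/-! ### The Carlitz module -/

/-- `C_T = T X + X^q` -/
noncomputable def carT (k : Type) [Field k] [Fintype k] : (k[X])[X] :=
  C (X : k[X]) * X + X ^ Fintype.card k

/-- `C_(T^n)` -/
noncomputable def carP (k : Type) [Field k] [Fintype k] : ℕ → (k[X])[X]
  | 0 => X
  | n + 1 => (carT k).comp (carP k n)

/-- the Carlitz polynomial `C_a` -/
noncomputable def car {k : Type} [Field k] [Fintype k] (a : k[X]) : (k[X])[X] :=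
  ∑ i ∈ range (a.natDegree + 1), C (C (a.coeff i)) * carP k i

/-- the coefficient `[a,i]` of `X^(q^i)` in `C_a` -/
noncomputable def br {k : Type} [Field k] [Fintype k] (a : k[X]) (i : ℕ) : k[X] :=
  (car a).coeff (Fintype.card k ^ i)

/-- basic facts on Carlitz polynomials -/
def S_C1 : Prop := ∀ (k : Type) [Field k] [Fintype k],
  (∀ a : k[X], car a = ∑ i ∈ range (a.natDegree + 1), C (br a i) * X ^ (Fintype.card k ^ i)) ∧
  (∀ a : k[X], br a 0 = a) ∧
  (∀ (a : k[X]) (i : ℕ), (X ^ (Fintype.card k ^ (i + 1)) - X) * br a (i + 1) =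
    (br a i) ^ Fintype.card k - br a i) ∧
  (∀ a : k[X], a.Monic → br a a.natDegree = 1) ∧
  (∀ (S : Type) [CommRing S] [Algebra k[X] S] (L : k[X] → S), (∀ a b, L (a + b) = L a + L b) →
    (∀ (u : k) (a : k[X]), L (C u * a) = algebraMap k[X] S (C u) * L a) →
    (∀ a : k[X], L (X * a) = algebraMap k[X] S X * L a + (L a) ^ Fintype.card k) →
    ∀ a b : k[X], L (a * b) = aeval (L b) (car a))

/-- coefficients below the top are divisible by `P` -/
def S_C2 : Prop := ∀ (k : Type) [Field k] [Fintype k] (P : k[X]), P.Monic → Irreducible P →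
  ∀ i < P.natDegree, P ∣ br P i

/-- the conjugates of a root of an irreducible polynomial -/
def S_C3 : Prop := ∀ (k F : Type) [Field k] [Fintype k] [Field F] [Algebra k F] (P : k[X]) (θ : F),
  P.Monic → Irreducible P → aeval θ P = 0 →
  θ ^ (Fintype.card k ^ P.natDegree) = θ ∧
  (∀ i < P.natDegree, ∀ j < P.natDegree, θ ^ (Fintype.card k ^ i) = θ ^ (Fintype.card k ^ j) →
    i = j) ∧
  P.map (algebraMap k F) = ∏ j ∈ range P.natDegree, (X - C (θ ^ (Fintype.card k ^ j))) ∧
  (∀ (a : k[X]) (j : ℕ), aeval (θ ^ (Fintype.card k ^ j)) a = (aeval θ a) ^ (Fintype.card k ^ j)) ∧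
  (∀ a : k[X], aeval θ a = 0 ↔ P ∣ a) ∧
  (∀ e : ℕ, 0 < e → ∑ a : Fin P.natDegree → k, (aeval θ (pol a)) ^ e =
    open Classical in if (Fintype.card k ^ P.natDegree - 1) ∣ e then (-1 : F) else 0)

/-! ### The relative Frobenius and the Cartier operator on Laurent series -/

/-- `t` is the `F`-linear Frobenius `x ↦ x^q` -/
def IsTau {F : Type} [Field F] (q : ℕ) (t : LS F →+* LS F) : Prop :=
  (∀ (f : LS F) (j : ℤ), (t f).coeff (q * j) = f.coeff j) ∧
  ∀ (f : LS F) (i : ℤ), ¬ (q : ℤ) ∣ i → (t f).coeff i = 0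

/-- fixed by the `F`-linear Cartier operator (with respect to `dT`) -/
def Fixd {F : Type} [Field F] (q : ℕ) (f : LS F) : Prop :=
  ∀ j : ℤ, f.coeff j = f.coeff ((q : ℤ) * j - ((q : ℤ) - 1) ^ 2)

/-- the relative Frobenius -/
def S_TAU : Prop := ∀ (k F : Type) [Field k] [Fintype k] [Field F] [Algebra k F],
  ∃ t : LS F →+* LS F, IsTau (Fintype.card k) t ∧
    (∀ c : F, t (HahnSeries.C c) = HahnSeries.C c) ∧
    (∀ h : F[X], t (iF (Fintype.card k) h) = iF (Fintype.card k) (expand F (Fintype.card k) h)) ∧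
    (∀ f : LS F, KR k f → t f = f ^ Fintype.card k) ∧
    (∀ (y : LS F) (g : F[X]) (j : ℤ), (t y * iF (Fintype.card k) g).coeff
      ((Fintype.card k : ℤ) * j - ((Fintype.card k : ℤ) - 1) ^ 2) =
        (y * iF (Fintype.card k) (UU (Fintype.card k) g)).coeff j)

/-! ### Gauss sums -/

/-- the digit `j` of `κ` in base `q` -/
def dig (q κ j : ℕ) : ℕ := κ / q ^ j % q

/-- the polynomial `R = prod (X - θ_j)^(q - 1 - κ_j)` -/
noncomputable def RR {F : Type} [Field F] (q d : ℕ) (θ : F) (κ : ℕ) : F[X] :=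
  ∏ j ∈ range d, (X - C (θ ^ q ^ j)) ^ (q - 1 - dig q κ j)

/-- `ρ(a) = prod a(θ_j)^(q - 1 - κ_j)`, the inverse of the character `a ↦ a(θ)^κ` -/
noncomputable def rho {k F : Type} [Field k] [Fintype k] [Field F] [Algebra k F] (d : ℕ) (θ : F)
    (κ : ℕ) (a : k[X]) : F :=
  ∏ j ∈ range d, (aeval (θ ^ Fintype.card k ^ j) a) ^ (Fintype.card k - 1 - dig (Fintype.card k) κ j)

/-- properties of the function `ρ` and the polynomial `R` -/
def S_RHO : Prop := ∀ (k F : Type) [Field k] [Fintype k] [Field F] [Algebra k F] (P : k[X]) (θ : F)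
  (κ : ℕ), P.Monic → Irreducible P → aeval θ P = 0 → 0 < κ →
  κ < Fintype.card k ^ P.natDegree - 1 → (Fintype.card k - 1) ∣ κ →
  (∀ a b : k[X], rho P.natDegree θ κ (a - P * b) = rho P.natDegree θ κ a) ∧
  rho P.natDegree θ κ (0 : k[X]) = 0 ∧
  (∀ (u : k) (a : k[X]), u ≠ 0 → rho P.natDegree θ κ (C u * a) = rho P.natDegree θ κ a) ∧
  (∀ (n : ℕ) (c : Fin n → k), rho P.natDegree θ κ (mon c) =
    RES c (RR (Fintype.card k) P.natDegree θ κ)) ∧
  ∑ a : Fin P.natDegree → k, rho P.natDegree θ κ (pol a) = 0 ∧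
  (∀ a : k[X], ¬ P ∣ a → rho P.natDegree θ κ a * (aeval θ a) ^ κ = 1) ∧
  ∃ m : ℕ, m < P.natDegree ∧
    (RR (Fintype.card k) P.natDegree θ κ).natDegree = (Fintype.card k - 1) * (m + 1) ∧
    (RR (Fintype.card k) P.natDegree θ κ).Monic

/-- the system of equations satisfied by Gauss sums, in an algebra over `F[X]` -/
def IsGS {F S : Type} [Field F] [CommRing S] [Algebra F[X] S] (q d : ℕ) (θ : F) (G : ℕ → S) :
    Prop :=
  (∀ j, (G j) ^ q = algebraMap F[X] S (C (θ ^ q ^ (j + 1)) - X) * G (j + 1)) ∧ ∀ j, G (j + d) = G j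

/-- universal form of the `ψ`-component of an expression in the torsion points -/
def S_K1 : Prop := ∀ (k F : Type) [Field k] [Fintype k] [Field F] [Algebra k F] (P : k[X]) (θ : F)
  (κ : ℕ), P.Monic → Irreducible P → aeval θ P = 0 → 0 < κ →
  κ < Fintype.card k ^ P.natDegree - 1 → (Fintype.card k - 1) ∣ κ → ∀ y : (F[X])[X],
  ∃ g : F[X], ∀ (S : Type) [CommRing S] [Algebra F[X] S] (G : ℕ → S),
    IsGS (Fintype.card k) P.natDegree θ G →
    - ∑ a : Fin P.natDegree → k, algebraMap F[X] S (C (rho P.natDegree θ κ (pol a))) *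
      aeval (∑ j ∈ range P.natDegree,
        algebraMap F[X] S (C (aeval (θ ^ Fintype.card k ^ j) (pol a))) * G j) y =
    algebraMap F[X] S g * ∏ j ∈ range P.natDegree, G j ^ dig (Fintype.card k) κ j

/-- Laurent series over `F` as an algebra over `F[X]` (`X` acts as `T`) -/
@[reducible] noncomputable def algLS (F : Type) [Field F] (q : ℕ) : Algebra F[X] (LS F) :=
  ((iF q : F[X] →ₐ[F] LS F) : F[X] →+* LS F).toAlgebra

/-- the Gauss sums at infinity -/
noncomputable def gs {k F : Type} [Field k] [Fintype k] [Field F] [Algebra k F] (P : k[X]) (θ : F)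
    (Lam : k[X] → LS F) (j : ℕ) : LS F :=
  - ∑ a : Fin P.natDegree → k,
    HahnSeries.C ((aeval (θ ^ Fintype.card k ^ j) (pol a))⁻¹) * Lam (pol a)

/-- properties of the Gauss sums at infinity -/
def S_GS : Prop := ∀ (k F : Type) [Field k] [Fintype k] [Field F] [Algebra k F] (P : k[X]) (θ : F)
  (Lam : k[X] → LS F), P.Monic → Irreducible P → aeval θ P = 0 → IsLam k F P Lam →
  (letI := algLS F (Fintype.card k);
    IsGS (S := LS F) (Fintype.card k) P.natDegree θ (gs P θ Lam)) ∧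
  (∀ a : k[X], Lam a = ∑ j ∈ range P.natDegree,
    HahnSeries.C (aeval (θ ^ Fintype.card k ^ j) a) * gs P θ Lam j) ∧
  (∀ j, gs P θ Lam j ≠ 0) ∧
  (∀ t : LS F →+* LS F, IsTau (Fintype.card k) t → (∀ c : F, t (HahnSeries.C c) = HahnSeries.C c) →
    (∀ f : LS F, KR k f → t f = f ^ Fintype.card k) →
    ∀ j, t (gs P θ Lam j) =
      iF (Fintype.card k) (C (θ ^ Fintype.card k ^ j) - X) * gs P θ Lam j)

/-- the product of Gauss sums attached to `κ` -/
noncomputable def GG {k F : Type} [Field k] [Fintype k] [Field F] [Algebra k F] (P : k[X]) (θ : F)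
    (Lam : k[X] → LS F) (κ : ℕ) : LS F :=
  ∏ j ∈ range P.natDegree, gs P θ Lam j ^ dig (Fintype.card k) κ j

/-- the form `h G / P` is fixed by the Cartier operator if and only if `U_q (h R) = h` -/
def S_FX : Prop := ∀ (k F : Type) [Field k] [Fintype k] [Field F] [Algebra k F] (P : k[X]) (θ : F)
  (Lam : k[X] → LS F) (κ : ℕ), P.Monic → Irreducible P → aeval θ P = 0 → IsLam k F P Lam → 0 < κ →
  κ < Fintype.card k ^ P.natDegree - 1 → (Fintype.card k - 1) ∣ κ → ∀ h : F[X],
  (Fixd (Fintype.card k) (iF (Fintype.card k) h / iA P * GG P θ Lam κ) ↔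
    UU (Fintype.card k) (h * RR (Fintype.card k) P.natDegree θ κ) = h)

/-- the polynomial `ξ(Y) = sum_(i<d) [P,i]' Y^(q^i - 1)` -/
noncomputable def xi {k F : Type} [Field k] [Fintype k] [Field F] [Algebra k F] (P : k[X]) :
    (F[X])[X] :=
  ∑ i ∈ range P.natDegree, C ((derivative (br P i)).map (algebraMap k F)) *
    X ^ (Fintype.card k ^ i - 1)

/-- logarithmic derivatives of the torsion points -/
def S_DL : Prop := ∀ (k F : Type) [Field k] [Fintype k] [Field F] [Algebra k F] (P : k[X])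
  (Lam : k[X] → LS F), P.Monic → Irreducible P → IsLam k F P Lam → ∀ a : k[X], ¬ P ∣ a →
  (letI := algLS F (Fintype.card k);
    dl (Fintype.card k) (Lam a) = - (aeval (Lam a) (xi P : (F[X])[X])) / iA P) ∧
  Fixd (Fintype.card k) (dl (Fintype.card k) (Lam a))

/-- `D_s` at the point `θ` -/
noncomputable def Dt {F : Type} [Field F] (q : ℕ) (θ : F) (s : ℕ) : F :=
  ∏ l ∈ range s, (θ ^ q ^ s - θ ^ q ^ l)

/-- the power series `z / e(z)` at the point `θ`, with `e` truncated at degree `q^(d-1)` -/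
noncomputable def bet {F : Type} [Field F] (q d : ℕ) (θ : F) : PowerSeries F :=
  (∑ s ∈ range d, PowerSeries.monomial (q ^ s - 1) ((Dt q θ s)⁻¹))⁻¹

/-- the exponent `n_i = sum_s κ_(i+s) q^s` (indices modulo `d`) -/
def nn (q d κ i : ℕ) : ℕ := ∑ s ∈ range d, dig q κ ((i + s) % d) * q ^ s

/-- the value at `θ_i` of the universal polynomial of `ξ` -/
def S_K4 : Prop := ∀ (k F : Type) [Field k] [Fintype k] [Field F] [Algebra k F] (P : k[X]) (θ : F)
  (κ : ℕ) (g : F[X]), P.Monic → Irreducible P → aeval θ P = 0 → 0 < κ →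
  κ < Fintype.card k ^ P.natDegree - 1 → (Fintype.card k - 1) ∣ κ →
  (∀ (S : Type) [CommRing S] [Algebra F[X] S] (G : ℕ → S),
    IsGS (Fintype.card k) P.natDegree θ G →
    - ∑ a : Fin P.natDegree → k, algebraMap F[X] S (C (rho P.natDegree θ κ (pol a))) *
      aeval (∑ j ∈ range P.natDegree,
        algebraMap F[X] S (C (aeval (θ ^ Fintype.card k ^ j) (pol a))) * G j) (xi P : (F[X])[X]) =
    algebraMap F[X] S g * ∏ j ∈ range P.natDegree, G j ^ dig (Fintype.card k) κ j) →
  ∀ i < P.natDegree, (bet (Fintype.card k) P.natDegree (θ ^ Fintype.card k ^ i)).coeff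
    (nn (Fintype.card k) P.natDegree κ i) = 0 → eval (θ ^ Fintype.card k ^ i) g = 0

/-- conclusion of the first half: two independent fixed polynomials -/
def S_M1 : Prop := ∀ (k F : Type) [Field k] [Fintype k] [Field F] [Algebra k F] (P : k[X]) (θ : F)
  (κ : ℕ), P.Monic → Irreducible P → aeval θ P = 0 → 0 < κ →
  κ < Fintype.card k ^ P.natDegree - 1 → (Fintype.card k - 1) ∣ κ →
  (∀ i < P.natDegree, (bet (Fintype.card k) P.natDegree (θ ^ Fintype.card k ^ i)).coeff
    (nn (Fintype.card k) P.natDegree κ i) = 0) →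
  ∃ h1 h2 : F[X], UU (Fintype.card k) (h1 * RR (Fintype.card k) P.natDegree θ κ) = h1 ∧
    UU (Fintype.card k) (h2 * RR (Fintype.card k) P.natDegree θ κ) = h2 ∧
    LinearIndependent F ![h1, h2]

end Pool.Agent.W345.GK
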