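import Pool.Agent.W345.GK.Cl2
import Pool.Agent.W237.GK.TA1
import Pool.Agent.W237.GK.TA2
import Pool.Agent.W103.GK.Ta3
import Pool.Agent.W924.GK.TA4
import Pool.Agent.W585.GK.TA5
import Pool.Agent.W753.GK.TA6
import Pool.Agent.W160.GK.TA7
import Pool.Agent.W503.GK.TA8
import Pool.Agent.W74.GK.TA9
import Pool.Agent.W236.GK.TA10
import Pool.Agent.W991.GK.Tf
import Pool.Agent.W308.GK.TFD
import Pool.Agent.W405.GK.LA
import Pool.Agent.W392.GK.LV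
import Pool.Agent.W503.GK.I1
import Pool.Agent.W885.GK.I2
import Pool.Agent.W351.GK.I3
import Pool.Agent.W168.GK.I4
import Pool.Agent.W672.GK.I5
import Pool.Agent.W672.GK.I6
import Pool.Agent.W376.GK.Exp
import Pool.Agent.W479.GK.Inf
import Pool.Agent.W160.GK.C1
import Pool.Agent.W490.GK.C2
import Pool.Agent.W347.GK.C3
import Pool.Agent.W479.GK.Tau
import Pool.Agent.W991.GK.Rho
import Pool.Agent.W880.GK.K1
import Pool.Agent.W880.GK.GS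
import Pool.Agent.W816.GK.Fx
import Pool.Agent.W304.GK.DL
import Pool.Agent.W922.GK.K4
import Pool.Agent.W766.GK.M1

set_option autoImplicit false

namespace Pool.Agent.W345.GK

theorem h_i1 : S_I1 := Pool.Agent.W503.GK.I1.i1

theorem h_tf : S_TF :=
  Pool.Agent.W991.GK.tf Pool.Agent.W237.GK.ta1
    (Pool.Agent.W503.GK.TA8.ta8 Pool.Agent.W237.GK.ta2
      (Pool.Agent.W103.GK.ta3 Pool.Agent.W237.GK.ta2) Pool.Agent.W924.GK.TA4.ta4
      Pool.Agent.W585.GK.TA5.ta5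
      (Pool.Agent.W160.GK.ta7 Pool.Agent.W237.GK.ta2
        (Pool.Agent.W753.GK.TA6.ta6 Pool.Agent.W237.GK.ta2 Pool.Agent.W924.GK.TA4.ta4)))
    Pool.Agent.W74.GK.ta9 Pool.Agent.W236.GK.ta10

theorem h_lv : S_LV :=
  Pool.Agent.W392.GK.LV.lv (Pool.Agent.W308.GK.tfd h_tf) Pool.Agent.W405.GK.LA.la

theorem h_exp : S_EXP :=
  Pool.Agent.W376.GK.exp h_i1 Pool.Agent.W351.GK.i3 Pool.Agent.W168.GK.i4
    (Pool.Agent.W672.GK.i5 h_i1 Pool.Agent.W351.GK.i3)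

theorem h_inf : S_INF := Pool.Agent.W479.GK.inf h_i1 (Pool.Agent.W672.GK.i6 h_i1)

theorem h_c1 : S_C1 := Pool.Agent.W160.GK.C1.c1

theorem h_c2 : S_C2 := Pool.Agent.W490.GK.c2 h_c1

theorem h_c3 : S_C3 := Pool.Agent.W347.GK.c3

theorem h_rho : S_RHO := Pool.Agent.W991.GK.rho_ok h_c3

theorem h_gs : S_GS := Pool.Agent.W880.GK.GS.gs_ok h_i1 h_c3

theorem h_fx : S_FX := Pool.Agent.W816.GK.Fx.fx h_i1 h_c3 (Pool.Agent.W479.GK.tau h_i1) h_gs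

theorem h_dl : S_DL := Pool.Agent.W304.GK.DL.dl_ok h_i1 W885.GK.I2.i2 h_c1

theorem h_m1 : S_M1 :=
  Pool.Agent.W766.GK.m1 h_i1 h_lv h_exp h_inf h_c3 h_rho (Pool.Agent.W880.GK.K1.k1 h_c3) h_gs h_fx
    h_dl (Pool.Agent.W922.GK.k4 h_c1 h_c2 h_c3)

end Pool.Agent.W345.GK
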