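import Pool.Agent.W345.GK.TF

set_option autoImplicit false

open Polynomial Finset

namespace Pool.Agent.W345.GK

/-- Laurent series in one variable `x` -/
abbrev LS (F : Type) [Field F] := LaurentSeries F

/-- `T = - x^(1-q)` -/
noncomputable def TT (F : Type) [Field F] (q : ℕ) : LS F := HahnSeries.single (1 - (q : ℤ)) (-1 : F)

/-- polynomials in `T` as Laurent series in `x` -/
noncomputable def iF {F : Type} [Field F] (q : ℕ) : F[X] →ₐ[F] LS F := aeval (TT F q)

/-- polynomials with coefficients in `k` as Laurent series over `F` -/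
noncomputable def iA {k F : Type} [Field k] [Fintype k] [Field F] [Algebra k F] : k[X] →+* LS F :=
  ((iF (Fintype.card k) : F[X] →ₐ[F] LS F) : F[X] →+* LS F).comp (mapRingHom (algebraMap k F))

/-- the derivation `d/dT = - x^q d/dx` -/
noncomputable def Dx {F : Type} [Field F] (q : ℕ) (f : LS F) : LS F :=
  -(HahnSeries.single (q : ℤ) (1 : F) * LaurentSeries.derivative F f)

/-- logarithmic derivative -/
noncomputable def dl {F : Type} [Field F] (q : ℕ) (f : LS F) : LS F := Dx q f / f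

/-- all coefficients are in `k` -/
def KR (k : Type) {F : Type} [Field k] [Field F] [Algebra k F] (f : LS F) : Prop :=
  ∀ j, f.coeff j ∈ Set.range (algebraMap k F)

/-- the polynomials of degree less than `N` -/
noncomputable def pol {k : Type} [Field k] {N : ℕ} (c : Fin N → k) : k[X] :=
  ∑ i : Fin N, C (c i) * X ^ (i : ℕ)

/-- convergence with linear rate -/
def Lim {F : Type} [Field F] (f : ℕ → LS F) (g : LS F) : Prop :=
  ∃ C : ℤ, ∀ (N : ℕ) (j : ℤ), j < N - C → (f N).coeff j = g.coeff j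

/-- basic facts on `T`, the order and the derivation -/
def S_I1 : Prop := ∀ (k F : Type) [Field k] [Fintype k] [Field F] [Algebra k F],
  Function.Injective (iF (F := F) (Fintype.card k)) ∧
  (∀ h : F[X], h ≠ 0 → (iF (Fintype.card k) h).order =
    - (((Fintype.card k : ℤ) - 1) * h.natDegree)) ∧
  (∀ f g : LS F, Dx (Fintype.card k) (f + g) = Dx (Fintype.card k) f + Dx (Fintype.card k) g) ∧
  (∀ f g : LS F, Dx (Fintype.card k) (f * g) =
    f * Dx (Fintype.card k) g + g * Dx (Fintype.card k) f) ∧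
  (∀ h : F[X], Dx (Fintype.card k) (iF (Fintype.card k) h) = iF (Fintype.card k) (derivative h)) ∧
  (∀ f g : LS F, f ≠ 0 → g ≠ 0 →
    dl (Fintype.card k) (f * g) = dl (Fintype.card k) f + dl (Fintype.card k) g)

/-- logarithmic derivatives are fixed by the Cartier operator -/
def S_I2 : Prop := ∀ (k F : Type) [Field k] [Fintype k] [Field F] [Algebra k F] (g : LS F),
  g ≠ 0 → ∀ j : ℤ, ((dl (Fintype.card k) g).coeff j) ^ (Fintype.card k) =
    (dl (Fintype.card k) g).coeff ((Fintype.card k : ℤ) * j - ((Fintype.card k : ℤ) - 1) ^ 2)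

/-- rules for limits -/
def S_I3 : Prop := ∀ (F : Type) [Field F],
  (∀ f : ℕ → LS F, (∃ C : ℤ, ∀ (N : ℕ) (j : ℤ), j < N - C → (f (N + 1)).coeff j = (f N).coeff j) →
    ∃ g, Lim f g) ∧
  (∀ (f : ℕ → LS F) (g g' : LS F), Lim f g → Lim f g' → g = g') ∧
  (∀ (f f' : ℕ → LS F) (g g' : LS F), Lim f g → Lim f' g' → Lim (fun N => f N + f' N) (g + g')) ∧
  (∀ (f f' : ℕ → LS F) (g g' : LS F), Lim f g → Lim f' g' → Lim (fun N => f N * f' N) (g * g')) ∧
  (∀ (f : ℕ → LS F) (g : LS F), g ≠ 0 → Lim f g → Lim (fun N => (f N)⁻¹) g⁻¹) ∧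
  (∀ (f : ℕ → LS F) (g : LS F) (q : ℕ), Lim f g → Lim (fun N => Dx q (f N)) (Dx q g)) ∧
  (∀ (f : ℕ → LS F) (g : LS F), Lim f g → Lim (fun N => f (N + 1)) g) ∧
  (∀ (f f' : ℕ → LS F) (g : LS F), (∃ N0, ∀ N ≥ N0, f N = f' N) → Lim f g → Lim f' g)

/-- the finite exponentials `z * prod_(b nonzero) (1 - z / b)`, `deg b < N` -/
noncomputable def eps {k E : Type} [Field k] [Fintype k] [Field E] (φ : k[X] →+* E) (N : ℕ)
    (z : E) : E :=
  open Classical in z * ∏ b ∈ univ.filter (fun b : Fin N → k => b ≠ 0), (1 - z / φ (pol b))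

/-- finite level identities -/
def S_I4 : Prop := ∀ (k E : Type) [Field k] [Fintype k] [Field E] (φ : k[X] →+* E),
  Function.Injective φ → ∀ N : ℕ,
  (∀ z w : E, eps φ N (z + w) = eps φ N z + eps φ N w) ∧
  (∀ (u : k) (z : E), eps φ N (φ (C u) * z) = φ (C u) * eps φ N z) ∧
  (∀ z : E, eps φ N z = 0 ↔ ∃ b : Fin N → k, z = φ (pol b)) ∧
  (∀ z : E, eps φ (N + 1) (φ X * z) = φ X * eps φ N z -
    φ X * (eps φ N z) ^ (Fintype.card k) / (eps φ N (φ X)⁻¹) ^ (Fintype.card k - 1))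

/-- the finite exponentials converge -/
def S_I5 : Prop := ∀ (k F : Type) [Field k] [Fintype k] [Field F] [Algebra k F] (z : LS F),
  ∃ g : LS F, Lim (fun N => eps (iA : k[X] →+* LS F) N z) g ∧
    (g = 0 ↔ ∃ a : k[X], z = iA a) ∧ (KR k z → KR k g)

/-- expansion of `c'/c` at infinity -/
def S_I6 : Prop := ∀ (k F : Type) [Field k] [Fintype k] [Field F] [Algebra k F] (n : ℕ)
  (c : Fin n → k),
  (∀ l : ℕ, (dl (Fintype.card k) (iA (mon c) : LS F)).coeff
    (((Fintype.card k : ℤ) - 1) * (l + 1)) = (-1) ^ (l + 1) * algebraMap k F (psm c l)) ∧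
  ∀ j : ℤ, (∀ l : ℕ, j ≠ ((Fintype.card k : ℤ) - 1) * (l + 1)) →
    (dl (Fintype.card k) (iA (mon c) : LS F)).coeff j = 0

/-- the torsion points at infinity: properties of `a ↦ exp_C (period * a / P)` -/
structure IsLam (k F : Type) [Field k] [Fintype k] [Field F] [Algebra k F] (P : k[X])
    (Lam : k[X] → LS F) : Prop where
  add : ∀ a b, Lam (a + b) = Lam a + Lam b
  smul : ∀ (u : k) (a : k[X]), Lam (C u * a) = (iA (C u : k[X]) : LS F) * Lam a
  mulX : ∀ a : k[X], Lam (X * a) = (iA (X : k[X]) : LS F) * Lam a + (Lam a) ^ (Fintype.card k)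
  zero_iff : ∀ a, Lam a = 0 ↔ P ∣ a
  rat : ∀ a, KR k (Lam a)
  close : ∃ B : ℤ, ∀ N : ℕ, ∃ κ : LS F, ∀ a : Fin P.natDegree → k, a ≠ 0 → ∀ j : ℤ, j < N - B →
    (dl (Fintype.card k) (Lam (pol a))).coeff j =
      (κ + ∑ b : Fin N → k, dl (Fintype.card k) (iA (pol a - P * pol b) : LS F)).coeff j

/-- existence of the torsion points at infinity -/
def S_EXP : Prop := ∀ (k F : Type) [Field k] [Fintype k] [Field F] [Algebra k F] (P : k[X]),
  P.Monic → 0 < P.natDegree → ∃ Lam : k[X] → LS F, IsLam k F P Lam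

/-- the relation at infinity -/
def S_INF : Prop := ∀ (k F : Type) [Field k] [Fintype k] [Field F] [Algebra k F] (P : k[X])
  (Lam : k[X] → LS F) (ρ : k[X] → F) (R : F[X]), P.Monic → 0 < P.natDegree → IsLam k F P Lam →
  (∀ a b, ρ (a - P * b) = ρ a) → ρ 0 = 0 → (∀ (u : k) (a : k[X]), u ≠ 0 → ρ (C u * a) = ρ a) →
  (∀ (n : ℕ) (c : Fin n → k), ρ (mon c) = RES c R) →
  ∑ a : Fin P.natDegree → k, ρ (pol a) = 0 →
  ∑ a : Fin P.natDegree → k, HahnSeries.C (ρ (pol a)) * dl (Fintype.card k) (Lam (pol a)) = 0 →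
  ∀ l : ℕ, ∃ M0, ∀ M ≥ M0,
    ∑ n ∈ range M, ∑ c : Fin n → k, RES c R * algebraMap k F (psm c l) = 0

end Pool.Agent.W345.GK
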