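import Pool.Agent.W345.GK.Half1

set_option autoImplicit false

open Polynomial Finset
open scoped TensorProduct nonZeroDivisors

namespace Pool.Agent.W345.GK

theorem main_of (hBER : S_BER) (hNN : S_NN) (hCYC : S_CYC) (hEMBD : S_EMBD) (hDER : S_DER)
    (hTOR : S_TOR) (hWIT : S_WIT) : S_MAIN := by
  intro k _ _ p _ _ P Fc _ _ _ _ _ κ hP hirr hκ0 hκ1 hκ2 hB
  have hfi : Fact (Irreducible P) := ⟨hirr⟩
  have hmax : (Ideal.span {P} : Ideal k[X]).IsMaximal :=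
    PrincipalIdealRing.isMaximal_of_irreducible hirr
  letI : Field (k[X] ⧸ (Ideal.span {P} : Ideal k[X])) := Ideal.Quotient.field _
  have hfin : Finite (k[X] ⧸ (Ideal.span {P} : Ideal k[X])) := by
    have := hP.finite_quotient
    exact Module.finite_of_finite k
  obtain ⟨⟨c⟩, hfd, hsep, hrank, hded, hfrac⟩ := hCYC k P Fc hP hirr
  have hd : 0 < P.natDegree := hirr.natDegree_pos
  have hq : 1 < Fintype.card k := Fintype.one_lt_card
  obtain ⟨θ, haev⟩ : ∃ θ : k[X] ⧸ (Ideal.span {P} : Ideal k[X]), ∀ a : k[X],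
      aeval θ a = Ideal.Quotient.mk (Ideal.span {P}) a := by
    refine ⟨Ideal.Quotient.mk (Ideal.span {P}) X, fun a => ?_⟩
    have h1 : (aeval (Ideal.Quotient.mk (Ideal.span {P}) X) : k[X] →ₐ[k] _) =
        Ideal.Quotient.mkₐ k (Ideal.span {P}) := by
      ext
      simp only [aeval_X]
      rfl
    rw [h1]
    rfl
  have hPθ : aeval θ P = 0 := by
    rw [haev, Ideal.Quotient.eq_zero_iff_mem]
    exact Ideal.mem_span_singleton_self P
  have hc3 := h_c3 k (k[X] ⧸ (Ideal.span {P} : Ideal k[X])) P θ hP hirr hPθ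
  obtain ⟨Lam, hLam⟩ := h_exp k (k[X] ⧸ (Ideal.span {P} : Ideal k[X])) P hP hd
  obtain ⟨ι, hι⟩ := hEMBD k (k[X] ⧸ (Ideal.span {P} : Ideal k[X])) Fc P c Lam hP hirr hLam
  obtain ⟨D, hD⟩ := hDER k (k[X] ⧸ (Ideal.span {P} : Ideal k[X])) Fc P c Lam ι hP hirr hrank hLam hι
  have hbet : ∀ i < P.natDegree,
      (bet (Fintype.card k) P.natDegree (θ ^ Fintype.card k ^ i)).coeff
        (nn (Fintype.card k) P.natDegree κ i) = 0 := by
    intro i hi
    obtain ⟨h1, h2, m, h3⟩ := hNN (Fintype.card k) P.natDegree κ i hq hd hκ0 hκ1 hi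
    refine hBER k (k[X] ⧸ (Ideal.span {P} : Ideal k[X])) P (θ ^ Fintype.card k ^ i) _ hP hirr ?_ h2
      (hB _ h1 h2 ?_)
    · rw [hc3.2.2.2.1, hPθ, zero_pow]
      exact pow_ne_zero _ (by omega)
    · obtain ⟨r, hr⟩ : ∃ r : ℕ, Fintype.card k = p ^ r := by
        obtain ⟨n, -, hn⟩ := FiniteField.card k p
        exact ⟨n, hn⟩
      refine ⟨r * m, ?_⟩
      rw [pow_mul, ← hr]
      exact h3
  have hm1 := h_m1 k (k[X] ⧸ (Ideal.span {P} : Ideal k[X])) P θ κ hP hirr hPθ hκ0 hκ1 hκ2 hbet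
  letI : Algebra k Fc := ((algebraMap k[X] Fc).comp C).toAlgebra
  haveI : IsScalarTower k k[X] Fc := IsScalarTower.of_algebraMap_eq' rfl
  obtain ⟨x, hx0, hx⟩ := hTOR k (k[X] ⧸ (Ideal.span {P} : Ideal k[X])) Fc p P θ κ c Lam ι D hP hirr
    hrank hPθ hLam hι hD hκ0 hκ1 hκ2 hm1
  refine hWIT k Fc p P κ c ⟨x, hx0, ?_⟩
  intro a ha
  rw [hx a ha, haev]

end Pool.Agent.W345.GK
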